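import Pool.Agent.helper43.DHB.SpecB

/-!
# Module `bWIN` (row `d2:bWIN`, helper93): averages over a window of length `τ`
-/

set_option autoImplicit false

open Filter Topology MeasureTheory
open scoped commutatorElement

namespace Pool.Agent.helper90.DH

open Pool.Agent.helper64.D2

/-- Cauchy-Schwarz on an interval. -/
theorem bWIN_CS (g : ℝ → ℝ) (a b : ℝ) (hab : a ≤ b) (h1 : IntervalIntegrable g volume a b)
    (h2 : IntervalIntegrable (fun x => g x ^ 2) volume a b) :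
    (∫ x in a..b, g x) ^ 2 ≤ (b - a) * ∫ x in a..b, g x ^ 2 := by
  rcases eq_or_lt_of_le hab with h | h
  · subst h; simp
  set I := ∫ x in a..b, g x with hI
  have h0 : 0 ≤ ∫ x in a..b, ((b - a) * g x - I) ^ 2 :=
    intervalIntegral.integral_nonneg hab (fun x _ => sq_nonneg _)
  have e1 : (∫ x in a..b, ((b - a) * g x - I) ^ 2) = (b - a) ^ 2 * (∫ x in a..b, g x ^ 2) - 2 * (b - a) * I * I + (b - a) * I ^ 2 := by
    have : (fun x => ((b - a) * g x - I) ^ 2) = fun x => ((b - a) ^ 2 * g x ^ 2 - (2 * (b - a) * I) * g x) + I ^ 2 := by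
      funext x; ring
    rw [this, intervalIntegral.integral_add ((h2.const_mul _).sub (h1.const_mul _)) (by simp), intervalIntegral.integral_sub (h2.const_mul _) (h1.const_mul _),
      intervalIntegral.integral_const_mul, intervalIntegral.integral_const_mul, intervalIntegral.integral_const, ← hI]
    simp only [smul_eq_mul]
  have hpos : 0 < b - a := by linarith
  rw [e1] at h0
  have : 0 ≤ (b - a) * ((b - a) * (∫ x in a..b, g x ^ 2) - I ^ 2) := by nlinarith
  have := nonneg_of_mul_nonneg_right this hpos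
  linarith

/-- The integral over a cell is zero. -/
theorem bWIN_cell (s : ℕ) (f : ℝ → ℝ) (hE : ∀ x, Es s f x = 0) (k : ℤ) : ∫ t in cell s k, f t = 0 := by
  have h2 : (0 : ℝ) < 2 ^ s := by positivity
  set x : ℝ := ((k : ℝ) + 1 / 2) / 2 ^ s with hx
  have hci : ci s x = k := by
    unfold ci
    rw [hx, mul_div_cancel₀ _ h2.ne']
    rw [Int.floor_eq_iff]
    constructor <;> linarith
  have hmid : mid s x = x := by
    unfold mid
    rw [hci, hx]
  have h := hE x
  unfold Es at h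
  rw [hci, hmid] at h
  simp only [sub_self, mul_zero, zero_mul, add_zero] at h
  rcases mul_eq_zero.1 h with h | h
  · exact absurd h h2.ne'
  · exact h

/-- The primitive. -/
noncomputable def bWINF (f : ℝ → ℝ) (z : ℝ) : ℝ := ∫ t in (0 : ℝ)..z, f t

theorem bWIN_grid (s : ℕ) (f : ℝ → ℝ) (hi : Integrable f) (hE : ∀ x, Es s f x = 0) (k : ℕ) : bWINF f ((k : ℝ) / 2 ^ s) = 0 := by
  induction k with
  | zero => simp [bWINF]
  | succ k ih =>
    have h1 : bWINF f (((k + 1 : ℕ) : ℝ) / 2 ^ s) = bWINF f ((k : ℝ) / 2 ^ s) + ∫ t in ((k : ℝ) / 2 ^ s)..(((k + 1 : ℕ) : ℝ) / 2 ^ s), f t := by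
      unfold bWINF
      rw [intervalIntegral.integral_add_adjacent_intervals hi.intervalIntegrable hi.intervalIntegrable]
    rw [h1, ih, zero_add]
    have h2 := bWIN_cell s f hE (k : ℤ)
    unfold cell at h2
    rw [integral_Ico_eq_integral_Ioc] at h2
    rw [intervalIntegral.integral_of_le (by push_cast; gcongr; linarith)]
    push_cast at h2 ⊢
    exact h2

/-- The primitive at a point of a cell. -/
theorem bWIN_F_sq (s : ℕ) (f : ℝ → ℝ) (hi : Integrable f) (hi2 : Integrable (fun x => f x ^ 2)) (hE : ∀ x, Es s f x = 0) (k : ℕ) (z : ℝ)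
    (h0 : (k : ℝ) / 2 ^ s ≤ z) (h1 : z ≤ ((k + 1 : ℕ) : ℝ) / 2 ^ s) :
    bWINF f z ^ 2 ≤ (1 / 2 ^ s) * ∫ t in ((k : ℝ) / 2 ^ s)..(((k + 1 : ℕ) : ℝ) / 2 ^ s), f t ^ 2 := by
  have h2 : bWINF f z = ∫ t in ((k : ℝ) / 2 ^ s)..z, f t := by
    have e : bWINF f z = bWINF f ((k : ℝ) / 2 ^ s) + ∫ t in ((k : ℝ) / 2 ^ s)..z, f t := by
      unfold bWINF
      rw [intervalIntegral.integral_add_adjacent_intervals hi.intervalIntegrable hi.intervalIntegrable]
    rw [e, bWIN_grid s f hi hE k, zero_add]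
  have hz : z - (k : ℝ) / 2 ^ s ≤ 1 / 2 ^ s := by
    have : (((k + 1 : ℕ) : ℝ)) / 2 ^ s = (k : ℝ) / 2 ^ s + 1 / 2 ^ s := by push_cast; ring
    rw [this] at h1
    linarith
  have hnn : 0 ≤ ∫ t in ((k : ℝ) / 2 ^ s)..z, f t ^ 2 := intervalIntegral.integral_nonneg h0 (fun x _ => sq_nonneg _)
  have hle : (∫ t in ((k : ℝ) / 2 ^ s)..z, f t ^ 2) ≤ ∫ t in ((k : ℝ) / 2 ^ s)..(((k + 1 : ℕ) : ℝ) / 2 ^ s), f t ^ 2 := by
    rw [← intervalIntegral.integral_add_adjacent_intervals (a := (k : ℝ) / 2 ^ s) (b := z) (c := ((k + 1 : ℕ) : ℝ) / 2 ^ s) hi2.intervalIntegrable hi2.intervalIntegrable]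
    have : 0 ≤ ∫ t in z..(((k + 1 : ℕ) : ℝ) / 2 ^ s), f t ^ 2 := intervalIntegral.integral_nonneg h1 (fun x _ => sq_nonneg _)
    linarith
  rw [h2]
  have hcs := bWIN_CS f ((k : ℝ) / 2 ^ s) z h0 hi.intervalIntegrable hi2.intervalIntegrable
  calc (∫ t in ((k : ℝ) / 2 ^ s)..z, f t) ^ 2 ≤ (z - (k : ℝ) / 2 ^ s) * ∫ t in ((k : ℝ) / 2 ^ s)..z, f t ^ 2 := hcs
    _ ≤ (1 / 2 ^ s) * ∫ t in ((k : ℝ) / 2 ^ s)..z, f t ^ 2 := mul_le_mul_of_nonneg_right hz hnn
    _ ≤ _ := mul_le_mul_of_nonneg_left hle (by positivity)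

theorem bWIN_F_cont (f : ℝ → ℝ) (hi : Integrable f) : Continuous (bWINF f) :=
  intervalIntegral.continuous_primitive (fun _ _ => hi.intervalIntegrable) 0

theorem bWIN_F_zero (s : ℕ) (f : ℝ → ℝ) (hi : Integrable f) (hSu : Su f) (hE : ∀ x, Es s f x = 0) (z : ℝ) (hz : z ∉ Set.Icc (0 : ℝ) 1) : bWINF f z = 0 := by
  by_cases h : z < 0
  · unfold bWINF
    rw [intervalIntegral.integral_symm, neg_eq_zero]
    apply intervalIntegral.integral_zero_ae
    filter_upwards with x hx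
    rw [Set.uIoc_of_le h.le] at hx
    exact hSu x (fun hh => by have := hx.2; have := hh.1; linarith)
  · have h1 : 1 < z := by
      by_contra h2
      exact hz ⟨not_lt.1 h, not_lt.1 h2⟩
    have e : bWINF f z = bWINF f (((2 ^ s : ℕ) : ℝ) / 2 ^ s) + ∫ t in (((2 ^ s : ℕ) : ℝ) / 2 ^ s)..z, f t := by
      unfold bWINF
      rw [intervalIntegral.integral_add_adjacent_intervals hi.intervalIntegrable hi.intervalIntegrable]
    rw [e, bWIN_grid s f hi hE _, zero_add]
    have h3 : ((2 ^ s : ℕ) : ℝ) / 2 ^ s = 1 := by push_cast; exact div_self (by positivity)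
    rw [h3]
    apply intervalIntegral.integral_zero_ae
    filter_upwards with x hx
    rw [Set.uIoc_of_le h1.le] at hx
    exact hSu x (fun hh => by have := hx.1; have := hh.2; linarith)

theorem bWIN_F_nsq (s : ℕ) (f : ℝ → ℝ) (hi : Integrable f) (hi2 : Integrable (fun x => f x ^ 2)) (hSu : Su f) (hE : ∀ x, Es s f x = 0) :
    nsq (bWINF f) ≤ (1 / 2 ^ s) ^ 2 * nsq f := by
  have hc := bWIN_F_cont f hi
  have hii : ∀ a b : ℝ, IntervalIntegrable (fun x => bWINF f x ^ 2) volume a b := fun a b => (hc.pow 2).intervalIntegrable a b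
  have e1 : nsq (bWINF f) = ∫ x in (0 : ℝ)..1, bWINF f x ^ 2 := by
    unfold nsq
    rw [intervalIntegral.integral_of_le zero_le_one, ← integral_Icc_eq_integral_Ioc]
    symm
    apply setIntegral_eq_integral_of_forall_compl_eq_zero
    intro x hx
    rw [bWIN_F_zero s f hi hSu hE x hx]
    norm_num
  have e2 : (∫ x in (0 : ℝ)..1, bWINF f x ^ 2) = ∑ k ∈ Finset.range (2 ^ s), ∫ x in ((k : ℝ) / 2 ^ s)..(((k + 1 : ℕ) : ℝ) / 2 ^ s), bWINF f x ^ 2 := by
    rw [intervalIntegral.sum_integral_adjacent_intervals (f := fun x => bWINF f x ^ 2) (μ := volume) (a := fun k : ℕ => (k : ℝ) / 2 ^ s) (fun k _ => hii _ _)]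
    congr 1
    · simp
    · push_cast; exact (div_self (by positivity)).symm
  have e3 : (∫ x in (0 : ℝ)..1, f x ^ 2) = ∑ k ∈ Finset.range (2 ^ s), ∫ x in ((k : ℝ) / 2 ^ s)..(((k + 1 : ℕ) : ℝ) / 2 ^ s), f x ^ 2 := by
    rw [intervalIntegral.sum_integral_adjacent_intervals (f := fun x => f x ^ 2) (μ := volume) (a := fun k : ℕ => (k : ℝ) / 2 ^ s) (fun k _ => hi2.intervalIntegrable)]
    congr 1
    · simp
    · push_cast; exact (div_self (by positivity)).symm
  have e4 : (∫ x in (0 : ℝ)..1, f x ^ 2) ≤ nsq f := by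
    unfold nsq
    rw [intervalIntegral.integral_of_le zero_le_one]
    exact setIntegral_le_integral hi2 (Filter.Eventually.of_forall (fun x => sq_nonneg _))
  rw [e1, e2]
  calc (∑ k ∈ Finset.range (2 ^ s), ∫ x in ((k : ℝ) / 2 ^ s)..(((k + 1 : ℕ) : ℝ) / 2 ^ s), bWINF f x ^ 2)
      ≤ ∑ k ∈ Finset.range (2 ^ s), (1 / 2 ^ s) ^ 2 * ∫ x in ((k : ℝ) / 2 ^ s)..(((k + 1 : ℕ) : ℝ) / 2 ^ s), f x ^ 2 := by
        apply Finset.sum_le_sum
        intro k _
        have hab : (k : ℝ) / 2 ^ s ≤ ((k + 1 : ℕ) : ℝ) / 2 ^ s := by push_cast; gcongr; linarith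
        have hm := intervalIntegral.integral_mono_on (μ := volume) hab (hii _ _)
          (intervalIntegrable_const (c := (1 / 2 ^ s) * ∫ t in ((k : ℝ) / 2 ^ s)..(((k + 1 : ℕ) : ℝ) / 2 ^ s), f t ^ 2))
          (fun x hx => bWIN_F_sq s f hi hi2 hE k x hx.1 hx.2)
        refine hm.trans (le_of_eq ?_)
        rw [intervalIntegral.integral_const, smul_eq_mul]
        push_cast
        ring
    _ = (1 / 2 ^ s) ^ 2 * ∫ x in (0 : ℝ)..1, f x ^ 2 := by rw [e3, Finset.mul_sum]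
    _ ≤ (1 / 2 ^ s) ^ 2 * nsq f := mul_le_mul_of_nonneg_left e4 (by positivity)

/-- Substitution `z = P y` on an interval. -/
theorem bWIN_sub (P : ℝ → ℝ) (hP : ContDiff ℝ 1 P) (hm : StrictMono P) (f : ℝ → ℝ) (hi : Integrable f) (hd : ∀ x, 0 ≤ deriv P x) (a b : ℝ) (hab : a ≤ b) :
    ∫ y in a..b, deriv P y * f (P y) = bWINF f (P b) - bWINF f (P a) := by
  have hPd : Differentiable ℝ P := hP.differentiable (by norm_num)
  have himg : P '' Set.Icc a b = Set.Icc (P a) (P b) := by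
    apply Set.Subset.antisymm
    · rintro _ ⟨x, hx, rfl⟩
      exact ⟨hm.monotone hx.1, hm.monotone hx.2⟩
    · exact intermediate_value_Icc hab hPd.continuous.continuousOn
  have h := integral_image_eq_integral_abs_deriv_smul (s := Set.Icc a b) (f := P) (f' := deriv P) measurableSet_Icc
    (fun x _ => (hPd x).hasDerivAt.hasDerivWithinAt) (hm.injective.injOn) f
  rw [himg] at h
  have e1 : bWINF f (P b) - bWINF f (P a) = ∫ t in (P a)..(P b), f t := by
    unfold bWINF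
    rw [intervalIntegral.integral_interval_sub_left hi.intervalIntegrable hi.intervalIntegrable]
  rw [e1, intervalIntegral.integral_of_le (hm.monotone hab), ← integral_Icc_eq_integral_Ioc, h, intervalIntegral.integral_of_le hab, ← integral_Icc_eq_integral_Ioc]
  apply setIntegral_congr_fun measurableSet_Icc
  intro x _
  simp only [smul_eq_mul, abs_of_nonneg (hd x)]

/-- The pointwise bound of the window average. -/
theorem bWIN_pt (P : ℝ → ℝ) (hP : ContDiff ℝ 1 P) (hm : StrictMono P) (hsl : ∀ x, |deriv P x - 1| ≤ 1 / 100) (hL : ∀ x y, |deriv P x - deriv P y| ≤ |x - y|)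
    (f : ℝ → ℝ) (hf : Measurable f) (Bf : ℝ) (hB : ∀ x, |f x| ≤ Bf) (hi : Integrable f) (a τ : ℝ) (hτ : 0 < τ) :
    (∫ v in (0 : ℝ)..1, f (P (a + τ * v))) ^ 2 ≤ 4 * ((bWINF f (P (a + τ)) ^ 2 + bWINF f (P a) ^ 2) / τ ^ 2 +
      τ ^ 2 * ∫ v in (0 : ℝ)..1, f (P (a + τ * v)) ^ 2) := by
  have hPc : Continuous P := hP.continuous
  have hPd : Continuous (deriv P) := hP.continuous_deriv (by norm_num)
  have hgm : Measurable (fun y => f (P y)) := hf.comp hPc.measurable
  have hgb : ∀ y, ‖f (P y)‖ ≤ Bf := fun y => hB _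
  have hgi : ∀ u v : ℝ, IntervalIntegrable (fun y => f (P y)) volume u v := by
    intro u v
    exact (intervalIntegrable_const (c := Bf)).mono_fun hgm.aestronglyMeasurable
      (Filter.Eventually.of_forall (fun y => (hgb y).trans (le_abs_self _)))
  set G := ∫ v in (0 : ℝ)..1, f (P (a + τ * v)) with hG
  set A := ∫ v in (0 : ℝ)..1, |f (P (a + τ * v))| with hA
  set A2 := ∫ v in (0 : ℝ)..1, f (P (a + τ * v)) ^ 2 with hA2
  have hvm : Measurable (fun v : ℝ => f (P (a + τ * v))) := hf.comp (hPc.comp (by fun_prop)).measurable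
  have hvi : IntervalIntegrable (fun v : ℝ => f (P (a + τ * v))) volume 0 1 :=
    (intervalIntegrable_const (c := Bf)).mono_fun hvm.aestronglyMeasurable
      (Filter.Eventually.of_forall (fun y => (hB _).trans (le_abs_self _)))
  have hvi2 : IntervalIntegrable (fun v : ℝ => f (P (a + τ * v)) ^ 2) volume 0 1 := by
    refine (intervalIntegrable_const (c := Bf ^ 2)).mono_fun (hvm.pow_const 2).aestronglyMeasurable
      (Filter.Eventually.of_forall (fun y => ?_))
    have h := pow_le_pow_left₀ (abs_nonneg _) ((hB (P (a + τ * y))).trans (le_abs_self _)) 2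
    simp only [Real.norm_eq_abs, abs_pow]
    exact h
  -- `A ^ 2 ≤ A2`
  have hAA : A ^ 2 ≤ A2 := by
    have := bWIN_CS (fun v => |f (P (a + τ * v))|) 0 1 zero_le_one hvi.abs (by simpa [sq_abs] using hvi2)
    simpa [sq_abs, hA, hA2] using this
  have hA0 : 0 ≤ A := intervalIntegral.integral_nonneg zero_le_one (fun x _ => abs_nonneg _)
  -- scaling
  have s1 : ∫ y in a..(a + τ), f (P y) = τ * G := by
    have := intervalIntegral.integral_comp_add_mul (fun y => f (P y)) hτ.ne' a (a := 0) (b := 1)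
    rw [mul_zero, add_zero, mul_one, smul_eq_mul] at this
    rw [hG, this]
    field_simp
  have s2 : ∫ y in a..(a + τ), |f (P y)| = τ * A := by
    have := intervalIntegral.integral_comp_add_mul (fun y => |f (P y)|) hτ.ne' a (a := 0) (b := 1)
    rw [mul_zero, add_zero, mul_one, smul_eq_mul] at this
    rw [hA, this]
    field_simp
  have hnn : ∀ x, 0 ≤ deriv P x := fun x => by have := abs_le.1 (hsl x); linarith [this.1]
  have s3 := bWIN_sub P hP hm f hi hnn a (a + τ) (by linarith)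
  have hmi : IntervalIntegrable (fun y => (deriv P y - deriv P a) * f (P y)) volume a (a + τ) :=
    (hgi _ _).continuousOn_mul (by fun_prop)
  have hmi2 : IntervalIntegrable (fun y => deriv P y * f (P y)) volume a (a + τ) :=
    (hgi _ _).continuousOn_mul (by fun_prop)
  have s4 : deriv P a * (τ * G) = (bWINF f (P (a + τ)) - bWINF f (P a)) - ∫ y in a..(a + τ), (deriv P y - deriv P a) * f (P y) := by
    rw [← s1, ← s3, ← intervalIntegral.integral_const_mul, ← intervalIntegral.integral_sub hmi2 hmi]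
    congr 1
    funext y
    ring
  have s5 : |∫ y in a..(a + τ), (deriv P y - deriv P a) * f (P y)| ≤ τ * (τ * A) := by
    rw [← s2, ← intervalIntegral.integral_const_mul]
    refine (intervalIntegral.abs_integral_le_integral_abs (by linarith)).trans ?_
    refine intervalIntegral.integral_mono_on (by linarith) hmi.abs ((hgi _ _).abs.const_mul τ) ?_
    intro y hy
    rw [abs_mul]
    refine mul_le_mul_of_nonneg_right ?_ (abs_nonneg _)
    refine (hL y a).trans ?_
    rw [abs_of_nonneg (by linarith [hy.1])]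
    linarith [hy.2]
  have hda := abs_le.1 (hsl a)
  have s6 : (99 / 100) * (τ * |G|) ≤ |bWINF f (P (a + τ))| + |bWINF f (P a)| + τ * (τ * A) := by
    have h1 : |deriv P a * (τ * G)| ≤ |bWINF f (P (a + τ))| + |bWINF f (P a)| + τ * (τ * A) := by
      rw [s4]
      calc |(bWINF f (P (a + τ)) - bWINF f (P a)) - ∫ y in a..(a + τ), (deriv P y - deriv P a) * f (P y)|
          ≤ |bWINF f (P (a + τ)) - bWINF f (P a)| + |∫ y in a..(a + τ), (deriv P y - deriv P a) * f (P y)| := abs_sub _ _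
        _ ≤ (|bWINF f (P (a + τ))| + |bWINF f (P a)|) + τ * (τ * A) := add_le_add (abs_sub _ _) s5
    have h2 : |deriv P a * (τ * G)| = deriv P a * (τ * |G|) := by
      rw [abs_mul, abs_mul, abs_of_nonneg (hnn a), abs_of_pos hτ]
    rw [h2] at h1
    refine le_trans (mul_le_mul_of_nonneg_right (by linarith [hda.1]) (by positivity)) h1
  set F1 := |bWINF f (P (a + τ))| with hF1
  set F2 := |bWINF f (P a)| with hF2
  have hF1' : bWINF f (P (a + τ)) ^ 2 = F1 ^ 2 := (sq_abs _).symm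
  have hF2' : bWINF f (P a) ^ 2 = F2 ^ 2 := (sq_abs _).symm
  rw [hF1', hF2']
  have h0G : 0 ≤ |G| := abs_nonneg G
  have h01 : 0 ≤ F1 := abs_nonneg _
  have h02 : 0 ≤ F2 := abs_nonneg _
  have s7 : (99 / 100) * |G| ≤ (F1 + F2) / τ + τ * A := by
    have : (99 / 100) * |G| = ((99 / 100) * (τ * |G|)) / τ := by field_simp
    rw [this]
    have : (F1 + F2) / τ + τ * A = (F1 + F2 + τ * (τ * A)) / τ := by field_simp
    rw [this]
    exact div_le_div_of_nonneg_right s6 hτ.le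
  have s8 : ((99 / 100) * |G|) ^ 2 ≤ ((F1 + F2) / τ + τ * A) ^ 2 := pow_le_pow_left₀ (by positivity) s7 2
  have s9 : ((F1 + F2) / τ + τ * A) ^ 2 ≤ 3 * ((F1 ^ 2 + F2 ^ 2) / τ ^ 2 + τ ^ 2 * A ^ 2) := by
    have e : (F1 + F2) / τ = F1 / τ + F2 / τ := by ring
    have e' : (F1 ^ 2 + F2 ^ 2) / τ ^ 2 = (F1 / τ) ^ 2 + (F2 / τ) ^ 2 := by field_simp
    rw [e, e']
    nlinarith [sq_nonneg (F1 / τ - F2 / τ), sq_nonneg (F1 / τ - τ * A), sq_nonneg (F2 / τ - τ * A)]
  have s10 : τ ^ 2 * A ^ 2 ≤ τ ^ 2 * A2 := mul_le_mul_of_nonneg_left hAA (by positivity)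
  have s11 : G ^ 2 = |G| ^ 2 := (sq_abs G).symm
  rw [s11]
  have hX : 0 ≤ (F1 ^ 2 + F2 ^ 2) / τ ^ 2 := by positivity
  have hY : 0 ≤ τ ^ 2 * A2 := le_trans (by positivity) s10
  nlinarith

theorem bWIN (hNMF : bNMF_stmt) (hNIC : bNIC_stmt) : bWIN_stmt := by
  obtain ⟨-, N2, N3, N4⟩ := hNMF
  obtain ⟨-, -, -, -, I5, -, -, -, -, I10, I11⟩ := hNIC
  refine ⟨10, by norm_num, ?_⟩
  intro P B s τ f hP hL hB hτ hτ1 hPA hSu hE
  have hNc : Nc f := I11 (s + 1) f hPA hSu
  obtain ⟨hi, hi2, -⟩ := I5 f hNc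
  obtain ⟨hfm, Bf, hBf, hBf0⟩ := hNc
  have hBf_nn : 0 ≤ Bf := (abs_nonneg _).trans (hBf 0)
  obtain ⟨hPc, hPm, -, -⟩ := N3 P (1 / 100) (by norm_num) hP
  have hBc : Continuous B := hB.cd.continuous
  -- the maps `P (B x + c)`
  have hmap : ∀ c : ℝ, 0 ≤ c → c ≤ τ → NM (1 / 100 + 1 / 100 + 1 / 100 * (1 / 100) + |c|) (fun x => P (B x + c)) :=
    fun c _ _ => N2 P B (1 / 100) (1 / 100) c (by norm_num) (by norm_num) hP hB
  have ha : ∀ c : ℝ, 0 ≤ c → c ≤ τ → (1 / 100 + 1 / 100 + 1 / 100 * (1 / 100) + |c| : ℝ) ≤ 1 / 30 := by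
    intro c h0 h1
    rw [abs_of_nonneg h0]
    linarith
  have hmap' : ∀ c : ℝ, 0 ≤ c → c ≤ τ → NM (1 / 30) (fun x => P (B x + c)) := fun c h0 h1 =>
    ⟨(hmap c h0 h1).cd, fun x => ((hmap c h0 h1).sl x).trans (ha c h0 h1), fun x => ((hmap c h0 h1).ds x).trans (ha c h0 h1)⟩
  -- joint measurability
  have hjm : Measurable (fun z : ℝ × ℝ => f (P (B z.1 + τ * z.2))) := by
    apply hfm.comp
    apply Continuous.measurable
    exact hPc.comp ((hBc.comp continuous_fst).add (continuous_const.mul continuous_snd))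
  have hzero : ∀ x : ℝ, Bf + 1 < |x| → ∀ v ∈ Set.Ioc (0 : ℝ) 1, f (P (B x + τ * v)) = 0 := by
    intro x hx v hv
    apply hBf0
    have h := (hmap' (τ * v) (mul_nonneg hτ.le hv.1.le) (by nlinarith [hv.2])).ds x
    have h2 : |x| ≤ |P (B x + τ * v)| + |P (B x + τ * v) - x| := by
      have := abs_sub_abs_le_abs_sub x (P (B x + τ * v))
      rw [abs_sub_comm] at this
      linarith
    linarith
  set G : ℝ → ℝ := fun x => ∫ v in (0 : ℝ)..1, f (P (B x + τ * v)) with hG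
  have hGset : G = fun x => ∫ v in Set.Ioc (0 : ℝ) 1, f (P (B x + τ * v)) := by
    funext x
    rw [hG]
    simp only
    rw [intervalIntegral.integral_of_le zero_le_one]
  have hGm : Measurable G := by
    rw [hGset]
    exact (hjm.stronglyMeasurable.integral_prod_right' (ν := volume.restrict (Set.Ioc (0 : ℝ) 1))).measurable
  have hGNc : Nc G := by
    refine ⟨hGm, Bf + 1, ?_, ?_⟩
    · intro x
      have h := intervalIntegral.norm_integral_le_of_norm_le_const (a := (0 : ℝ)) (b := 1) (C := Bf) (f := fun v => f (P (B x + τ * v)))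
        (fun v _ => hBf _)
      rw [sub_zero, abs_one, mul_one] at h
      have : |G x| ≤ Bf := h
      linarith
    · intro x hx
      rw [hGset]
      show (∫ v in Set.Ioc (0 : ℝ) 1, f (P (B x + τ * v))) = 0
      rw [setIntegral_congr_fun (g := fun _ => (0 : ℝ)) measurableSet_Ioc (fun v hv => hzero x hx v hv)]
      simp
  refine ⟨hGNc, ?_⟩
  -- the second moment
  set A2 : ℝ → ℝ := fun x => ∫ v in (0 : ℝ)..1, f (P (B x + τ * v)) ^ 2 with hA2
  have hpt : ∀ x, G x ^ 2 ≤ 4 * ((bWINF f (P (B x + τ)) ^ 2 + bWINF f (P (B x + 0)) ^ 2) / τ ^ 2 + τ ^ 2 * A2 x) := by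
    intro x
    have := bWIN_pt P hP.cd hPm hP.sl hL f hfm Bf hBf hi (B x) τ hτ
    rw [add_zero]
    exact this
  -- the primitive
  have hFc := bWIN_F_cont f hi
  have hFbd : ∃ C, ∀ x, |bWINF f x| ≤ C := by
    refine ⟨∫ t, |f t|, fun x => ?_⟩
    have h := intervalIntegral.norm_integral_le_integral_norm_uIoc (f := f) (a := 0) (b := x) (μ := volume)
    have h2 := setIntegral_le_integral (s := Set.uIoc 0 x) hi.norm (Filter.Eventually.of_forall (fun x => norm_nonneg _))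
    have h3 := h.trans h2
    simp only [Real.norm_eq_abs] at h3
    exact h3
  have hFNc : Nc (bWINF f) := by
    obtain ⟨C, hC⟩ := hFbd
    refine ⟨hFc.measurable, max C 1, fun x => (hC x).trans (le_max_left _ _), fun x hx => ?_⟩
    apply bWIN_F_zero s f hi hSu hE
    intro h
    have h1 : |x| ≤ 1 := abs_le.2 ⟨by linarith [h.1], h.2⟩
    linarith [le_max_right C 1]
  have hFn := bWIN_F_nsq s f hi hi2 hSu hE
  have hF1 := I10 (fun x => P (B x + τ)) (1 / 30) (bWINF f) (by norm_num) (hmap' τ hτ.le le_rfl) hFNc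
  have hF2 := I10 (fun x => P (B x + 0)) (1 / 30) (bWINF f) (by norm_num) (hmap' 0 le_rfl hτ.le) hFNc
  have hI1 := (I5 _ hF1.1).2.1
  have hI2 := (I5 _ hF2.1).2.1
  -- Fubini
  have hjm2 : Measurable (fun z : ℝ × ℝ => f (P (B z.1 + τ * z.2)) ^ 2) := hjm.pow_const 2
  have hFI : Integrable (fun z : ℝ × ℝ => f (P (B z.1 + τ * z.2)) ^ 2) (volume.prod (volume.restrict (Set.Ioc (0 : ℝ) 1))) := by
    have hfin : IntegrableOn (fun z : ℝ × ℝ => f (P (B z.1 + τ * z.2)) ^ 2) (Set.Icc (-(Bf + 1)) (Bf + 1) ×ˢ Set.univ)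
        (volume.prod (volume.restrict (Set.Ioc (0 : ℝ) 1))) := by
      refine Measure.integrableOn_of_bounded (M := Bf ^ 2) ?_ ?_ ?_
      · rw [Measure.prod_prod]
        exact (ENNReal.mul_lt_top (by simp) (by simp)).ne
      · exact hjm2.aestronglyMeasurable
      · filter_upwards with z
        rw [Real.norm_eq_abs, abs_pow]
        exact pow_le_pow_left₀ (abs_nonneg _) (hBf _) 2
    have hae : ∀ᵐ z : ℝ × ℝ ∂(volume.prod (volume.restrict (Set.Ioc (0 : ℝ) 1))), z ∉ (Set.Icc (-(Bf + 1)) (Bf + 1) ×ˢ (Set.univ : Set ℝ)) →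
        f (P (B z.1 + τ * z.2)) ^ 2 = 0 := by
      have h1 : ∀ᵐ z : ℝ × ℝ ∂(volume.prod (volume.restrict (Set.Ioc (0 : ℝ) 1))), z.2 ∈ Set.Ioc (0 : ℝ) 1 :=
        Measure.quasiMeasurePreserving_snd.ae (ae_restrict_mem measurableSet_Ioc)
      filter_upwards [h1] with z hz hz2
      have h3 : Bf + 1 < |z.1| := by
        by_contra h4
        exact hz2 ⟨abs_le.1 (not_lt.1 h4), trivial⟩
      rw [hzero z.1 h3 z.2 hz]
      norm_num
    have hmsA : MeasurableSet (Set.Icc (-(Bf + 1)) (Bf + 1) ×ˢ (Set.univ : Set ℝ)) := measurableSet_Icc.prod MeasurableSet.univ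
    rw [← integrable_indicator_iff hmsA] at hfin
    refine hfin.congr ?_
    filter_upwards [hae] with z hz
    by_cases h : z ∈ (Set.Icc (-(Bf + 1)) (Bf + 1) ×ˢ (Set.univ : Set ℝ))
    · rw [Set.indicator_of_mem h]
    · rw [Set.indicator_of_notMem h, hz h]
  have hA2set : A2 = fun x => ∫ v in Set.Ioc (0 : ℝ) 1, f (P (B x + τ * v)) ^ 2 := by
    funext x
    rw [hA2]
    simp only
    rw [intervalIntegral.integral_of_le zero_le_one]
  have hA2i : Integrable A2 := by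
    rw [hA2set]
    exact hFI.integral_prod_left
  have hA2b : ∫ x, A2 x ≤ (1 / (1 - 1 / 30)) * nsq f := by
    rw [hA2set]
    simp only
    rw [integral_integral_swap hFI]
    have hc : ∀ v ∈ Set.Ioc (0 : ℝ) 1, ∫ x, f (P (B x + τ * v)) ^ 2 ≤ (1 / (1 - 1 / 30)) * nsq f := by
      intro v hv
      have := (I10 (fun x => P (B x + τ * v)) (1 / 30) f (by norm_num) (hmap' (τ * v) (mul_nonneg hτ.le hv.1.le) (by nlinarith [hv.2]))
        ⟨hfm, Bf, hBf, hBf0⟩).2
      exact this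
    have hint : Integrable (fun v => ∫ x, f (P (B x + τ * v)) ^ 2) (volume.restrict (Set.Ioc (0 : ℝ) 1)) := hFI.integral_prod_right
    calc (∫ v in Set.Ioc (0 : ℝ) 1, ∫ x, f (P (B x + τ * v)) ^ 2) ≤ ∫ v in Set.Ioc (0 : ℝ) 1, (1 / (1 - 1 / 30)) * nsq f :=
          setIntegral_mono_on hint (integrable_const _) measurableSet_Ioc hc
      _ = (1 / (1 - 1 / 30)) * nsq f := by simp
  -- summing up
  have hGi : Integrable (fun x => G x ^ 2) := (I5 G hGNc).2.1
  have hnf : 0 ≤ nsq f := integral_nonneg (fun x => sq_nonneg _)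
  have hs2 : (0 : ℝ) < 2 ^ s := by positivity
  have hfin : nsq G ≤ 4 * ((nsq (fun x => bWINF f (P (B x + τ))) + nsq (fun x => bWINF f (P (B x + 0)))) / τ ^ 2 + τ ^ 2 * ∫ x, A2 x) := by
    have hI12 : Integrable (fun x => (bWINF f (P (B x + τ)) ^ 2 + bWINF f (P (B x + 0)) ^ 2) / τ ^ 2) := (hI1.add hI2).div_const _
    have hI3 : Integrable (fun x => τ ^ 2 * A2 x) := hA2i.const_mul _
    have e : ∫ x, 4 * ((bWINF f (P (B x + τ)) ^ 2 + bWINF f (P (B x + 0)) ^ 2) / τ ^ 2 + τ ^ 2 * A2 x) =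
        4 * ((nsq (fun x => bWINF f (P (B x + τ))) + nsq (fun x => bWINF f (P (B x + 0)))) / τ ^ 2 + τ ^ 2 * ∫ x, A2 x) := by
      rw [integral_const_mul, integral_add hI12 hI3, integral_div, integral_add hI1 hI2, integral_const_mul]
      rfl
    rw [← e]
    exact integral_mono hGi ((hI12.add hI3).const_mul 4) hpt
  have hb1 : nsq (fun x => bWINF f (P (B x + τ))) ≤ (1 / (1 - 1 / 30)) * ((1 / 2 ^ s) ^ 2 * nsq f) := hF1.2.trans (mul_le_mul_of_nonneg_left hFn (by norm_num))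
  have hb2 : nsq (fun x => bWINF f (P (B x + 0))) ≤ (1 / (1 - 1 / 30)) * ((1 / 2 ^ s) ^ 2 * nsq f) := hF2.2.trans (mul_le_mul_of_nonneg_left hFn (by norm_num))
  have hτ2 : 0 < τ ^ 2 := by positivity
  calc nsq G ≤ _ := hfin
    _ ≤ 4 * (((1 / (1 - 1 / 30)) * ((1 / 2 ^ s) ^ 2 * nsq f) + (1 / (1 - 1 / 30)) * ((1 / 2 ^ s) ^ 2 * nsq f)) / τ ^ 2 + τ ^ 2 * ((1 / (1 - 1 / 30)) * nsq f)) := by
        gcongr
    _ = (4 * (1 / (1 - 1 / 30))) * (2 * (1 / (2 ^ s * τ)) ^ 2 + τ ^ 2) * nsq f := by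
        field_simp
        ring
    _ ≤ 10 * (1 / (2 ^ s * τ) + τ) ^ 2 * nsq f := by
        refine mul_le_mul_of_nonneg_right ?_ hnf
        have hp : 0 < 1 / (2 ^ s * τ) := by positivity
        nlinarith [mul_pos hp hτ, sq_nonneg τ, sq_nonneg (1 / (2 ^ s * τ))]

end Pool.Agent.helper90.DH
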